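import Pool.Agent.Q261.RotLim

/-!
# Rotkiewicz's question on the counts `N(p)` and `N-bar(p)`

The definitions (`cfVal`, `IsExpansion`, `M`, `Mbar`, `N`, `Nbar`) are in `Pool.Agent.Q261.RotDefs`.
-/

set_option autoImplicit false

namespace Pool.Agent.Results.MP_7c82b6_nt.RatioTendsToOne

open Filter Topology Q261.Rot

/-- **Main result**: the expansion of `p / n` is unique, and `N(p) / N-bar(p) → 1` as `p → ∞`
through the odd integers. -/
theorem result :
    (∀ p n : ℕ, 0 < n → n < p → ∃! l : List ℕ, IsExpansion p n l) ∧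
    Tendsto (fun p : ℕ => (N p : ℝ) / (Nbar p : ℝ)) (atTop ⊓ 𝓟 {p : ℕ | Odd p}) (𝓝 1) :=
  ⟨fun p n h0 h1 => existsUnique_expansion n p h0 h1, tendsto_ratio⟩

end Pool.Agent.Results.MP_7c82b6_nt.RatioTendsToOne
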